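import Pool.Agent.W785.FD.Stms

set_option autoImplicit false

/-!
# Averages converge in `L^1`
-/

open MeasureTheory Metric Set Filter
open scoped ENNReal NNReal Topology

namespace Pool.Agent.W948.FD.Avg

open Pool.Agent.W785.FD

/-- distance of extended nonnegative numbers -/
noncomputable def ad (a b : ℝ≥0∞) : ℝ≥0∞ := (a - b) + (b - a)

theorem ad_tri (a b c : ℝ≥0∞) : ad a c ≤ ad a b + ad b c := by
  unfold ad
  have h1 : a - c ≤ (a - b) + (b - c) := tsub_le_tsub_add_tsub
  have h2 : c - a ≤ (c - b) + (b - a) := tsub_le_tsub_add_tsub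
  calc a - c + (c - a) ≤ ((a - b) + (b - c)) + ((c - b) + (b - a)) := add_le_add h1 h2
    _ = _ := by ring

variable {X : Type*} [MetricSpace X] [MeasurableSpace X]

theorem lav_mono [BorelSpace X] (μ : Measure X) {f g : X → ℝ≥0∞} {x : X} {r : ℝ}
    (h : ∀ y ∈ ball x r, f y ≤ g y) : lav μ f x r ≤ lav μ g x r :=
  ENNReal.div_le_div_right (setLIntegral_mono' measurableSet_ball h) _

theorem lav_add (μ : Measure X) {f : X → ℝ≥0∞} (g : X → ℝ≥0∞) (hf : Measurable f) (x : X)
    (r : ℝ) : lav μ (fun y => f y + g y) x r = lav μ f x r + lav μ g x r := by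
  unfold lav
  rw [lintegral_add_left hf, ENNReal.add_div]

theorem lav_const {μ : Measure X} {D : ℝ} (hD : Dbl μ D) (c : ℝ≥0∞) (x : X) {r : ℝ} (hr : 0 < r) :
    lav μ (fun _ => c) x r = c := by
  unfold lav
  rw [setLIntegral_const, ENNReal.mul_div_cancel_right (hD.pos x r hr).ne' (hD.fin x r).ne]

theorem lav_sub_le [BorelSpace X] (μ : Measure X) {f g : X → ℝ≥0∞} (hg : Measurable g) (x : X)
    (r : ℝ) : lav μ f x r - lav μ g x r ≤ lav μ (fun y => f y - g y) x r := by
  rw [tsub_le_iff_left, ← lav_add μ _ hg]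
  exact lav_mono μ fun y _ => by rw [add_comm]; exact le_tsub_add

theorem ad_lav [BorelSpace X] (μ : Measure X) {f g : X → ℝ≥0∞} (hf : Measurable f)
    (hg : Measurable g) (x : X) (r : ℝ) :
    ad (lav μ f x r) (lav μ g x r) ≤ lav μ (fun y => ad (f y) (g y)) x r := by
  unfold ad
  have h1 : Measurable fun y => f y - g y := hf.sub hg
  rw [lav_add μ (fun y => g y - f y) h1]
  exact add_le_add (lav_sub_le μ hg x r) (lav_sub_le μ hf x r)

/-- the averaging operator is bounded on `L^1` -/
theorem lint_lav [BorelSpace X] {μ : Measure X} {D : ℝ} (h : S_FA μ D) (x₀ : X) {f : X → ℝ≥0∞}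
    (hf : Measurable f) {s : ℝ} (hs : 0 < s) :
    ∫⁻ z, lav μ f z s ∂μ ≤ ENNReal.ofReal D * ∫⁻ y, f y ∂μ := by
  have hU : (⋃ n : ℕ, ball x₀ (n : ℝ)) = univ := iUnion_ball_nat x₀
  have hd : Directed (· ⊆ ·) (fun n : ℕ => ball x₀ (n : ℝ)) :=
    directed_of_isDirected_le fun m n hmn => ball_subset_ball (by exact_mod_cast hmn)
  have h1 := setLIntegral_iUnion_of_directed (μ := μ) (fun z => lav μ f z s) hd
  rw [hU, Measure.restrict_univ] at h1
  rw [h1]
  refine iSup_le fun n => (h f hf x₀ n s hs).trans ?_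
  gcongr
  exact Measure.restrict_le_self

theorem ad_ofReal {a : ℝ≥0∞} (ha : a ≠ ∞) (b : ℝ) : ad a (ENNReal.ofReal b) ≤ ‖a.toReal - b‖ₑ := by
  obtain ⟨c, rfl⟩ : ∃ c : ℝ≥0, a = c := ⟨a.toNNReal, (ENNReal.coe_toNNReal ha).symm⟩
  rw [ENNReal.coe_toReal, Real.enorm_eq_ofReal_abs]
  unfold ad
  have e1 : (c : ℝ≥0∞) = ENNReal.ofReal (c : ℝ) := by simp
  rw [e1]
  rcases le_total (c : ℝ) b with h | h
  · rw [tsub_eq_zero_of_le (ENNReal.ofReal_le_ofReal h), zero_add,
      ← ENNReal.ofReal_sub _ c.coe_nonneg, abs_of_nonpos (by linarith)]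
    apply ENNReal.ofReal_le_ofReal
    linarith
  · rw [tsub_eq_zero_of_le (ENNReal.ofReal_le_ofReal h), add_zero, abs_of_nonneg (by linarith)]
    rcases le_total 0 b with hb | hb
    · rw [← ENNReal.ofReal_sub _ hb]
    · rw [ENNReal.ofReal_of_nonpos hb, tsub_zero]
      apply ENNReal.ofReal_le_ofReal
      linarith

theorem ad_le_two {a b c : ℝ≥0∞} (h1 : a ≤ b + c) (h2 : b ≤ a + c) : ad a b ≤ 2 * c := by
  unfold ad
  rw [two_mul]
  exact add_le_add (tsub_le_iff_left.2 h1) (tsub_le_iff_left.2 h2)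

/-- the uniformly continuous part -/
theorem cont_part [BorelSpace X] {μ : Measure X} {D : ℝ} (hD : Dbl μ D) (x₀ : X) {g : X → ℝ}
    {R δ e s : ℝ} (hR : ∀ y, y ∉ ball x₀ R → g y = 0)
    (hu : ∀ y z, dist y z < δ → |g y - g z| ≤ e) (hs : 0 < s) (hsδ : s ≤ δ) (hs1 : s ≤ 1) (z : X) :
    ad (lav μ (fun y => ENNReal.ofReal (g y)) z s) (ENNReal.ofReal (g z)) ≤
      (ball x₀ (R + 1)).indicator (fun _ => 2 * ENNReal.ofReal e) z := by
  by_cases hz : z ∈ ball x₀ (R + 1)
  · rw [indicator_of_mem hz]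
    apply ad_le_two
    · calc lav μ (fun y => ENNReal.ofReal (g y)) z s ≤
          lav μ (fun _ => ENNReal.ofReal (g z) + ENNReal.ofReal e) z s := by
            refine lav_mono μ fun y hy => ?_
            have h1 := hu y z (lt_of_lt_of_le (mem_ball.1 hy) hsδ)
            refine (ENNReal.ofReal_le_ofReal ?_).trans ENNReal.ofReal_add_le
            have := (abs_le.1 h1).2
            linarith
        _ = _ := lav_const hD _ z hs
    · have h2 : (fun _ : X => ENNReal.ofReal (g z)) = fun _ : X => ENNReal.ofReal (g z) := rfl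
      calc ENNReal.ofReal (g z) = lav μ (fun _ => ENNReal.ofReal (g z)) z s :=
            (lav_const hD _ z hs).symm
        _ ≤ lav μ (fun y => ENNReal.ofReal e + ENNReal.ofReal (g y)) z s := by
            refine lav_mono μ fun y hy => ?_
            have h1 := hu y z (lt_of_lt_of_le (mem_ball.1 hy) hsδ)
            rw [add_comm]
            refine (ENNReal.ofReal_le_ofReal ?_).trans ENNReal.ofReal_add_le
            have := (abs_le.1 h1).1
            linarith
        _ = lav μ (fun _ => ENNReal.ofReal e) z s +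
            lav μ (fun y => ENNReal.ofReal (g y)) z s := lav_add μ _ measurable_const z s
        _ = _ := by rw [lav_const hD _ z hs, add_comm]
  · rw [indicator_of_notMem hz]
    have hz' : R + 1 ≤ dist z x₀ := not_lt.1 hz
    have h1 : g z = 0 := hR z (by rw [mem_ball]; linarith)
    have h2 : lav μ (fun y => ENNReal.ofReal (g y)) z s ≤ 0 := by
      calc lav μ (fun y => ENNReal.ofReal (g y)) z s ≤ lav μ (fun _ => 0) z s := by
            refine lav_mono μ fun y hy => ?_
            rw [hR y, ENNReal.ofReal_zero]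
            rw [mem_ball] at hy ⊢
            have := dist_triangle z y x₀
            rw [dist_comm] at hy
            linarith
        _ = 0 := lav_const hD _ z hs
    rw [h1, ENNReal.ofReal_zero, nonpos_iff_eq_zero.1 h2]
    simp [ad]

theorem main {X : Type*} [MetricSpace X] [ProperSpace X] [MeasurableSpace X] [BorelSpace X]
    (μ : Measure X) (D : ℝ) (hD : Dbl μ D) (h : S_FA μ D) : S_AVG μ := by
  intro f hf hfi
  rcases isEmpty_or_nonempty X with hX | ⟨⟨x₀⟩⟩
  · simp only [lintegral_of_isEmpty]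
    exact tendsto_const_nhds
  have hfin : IsLocallyFiniteMeasure μ :=
    ⟨fun x => ⟨ball x 1, ball_mem_nhds x one_pos, hD.fin x 1⟩⟩
  rw [ENNReal.tendsto_nhds_zero]
  intro η hη
  obtain ⟨c, hc0, hcη⟩ : ∃ c : ℝ, 0 < c ∧ ENNReal.ofReal c ≤ η := by
    obtain ⟨c, h1, h2⟩ := ENNReal.lt_iff_exists_nnreal_btwn.1 hη
    refine ⟨c, by exact_mod_cast h1, ?_⟩
    rw [ENNReal.ofReal_coe_nnreal]
    exact h2.le
  have hD1 := hD.one_le
  set t : ℝ := c / (2 * (D + 1)) with ht
  have ht0 : 0 < t := by positivity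
  obtain ⟨g, hg1, hg2, hg3, -⟩ :=
    (integrable_toReal_of_lintegral_ne_top hf.aemeasurable hfi.ne).exists_hasCompactSupport_lintegral_sub_le
      (ε := ENNReal.ofReal t) (by simpa using ht0)
  obtain ⟨R, hR⟩ := (hg1.isCompact.isBounded).subset_ball x₀
  have hR' : ∀ y, y ∉ ball x₀ R → g y = 0 := fun y hy => by
    by_contra hc
    exact hy (hR (subset_tsupport g hc))
  set M : ℝ := (μ (ball x₀ (R + 1))).toReal with hM
  have hM0 : 0 ≤ M := ENNReal.toReal_nonneg
  set e : ℝ := c / (4 * (M + 1)) with he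
  have he0 : 0 < e := by positivity
  have huc := hg1.uniformContinuous_of_continuous hg3
  rw [Metric.uniformContinuous_iff] at huc
  obtain ⟨δ, hδ0, hδ⟩ := huc e he0
  have hu : ∀ y z, dist y z < δ → |g y - g z| ≤ e := fun y z hyz => by
    have := hδ hyz
    rw [Real.dist_eq] at this
    exact this.le
  have hmem : Ioc (0 : ℝ) (min δ 1) ∈ 𝓝[>] (0 : ℝ) :=
    Ioc_mem_nhdsGT (lt_min hδ0 one_pos)
  filter_upwards [hmem] with s hs
  obtain ⟨hs0, hs1⟩ := hs
  have hGm : Measurable fun y => ENNReal.ofReal (g y) :=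
    ENNReal.measurable_ofReal.comp hg3.measurable
  have hadm : Measurable fun y => ad (f y) (ENNReal.ofReal (g y)) :=
    (hf.sub hGm).add (hGm.sub hf)
  have hint : ∫⁻ y, ad (f y) (ENNReal.ofReal (g y)) ∂μ ≤ ENNReal.ofReal t := by
    refine (lintegral_mono_ae ?_).trans hg2
    filter_upwards [ae_lt_top hf hfi.ne] with y hy
    exact ad_ofReal hy.ne _
  have hpt : ∀ z, (lav μ f z s - f z) + (f z - lav μ f z s) ≤
      lav μ (fun y => ad (f y) (ENNReal.ofReal (g y))) z s +
      ((ball x₀ (R + 1)).indicator (fun _ => 2 * ENNReal.ofReal e) z +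
        ad (f z) (ENNReal.ofReal (g z))) := by
    intro z
    have h1 := ad_tri (lav μ f z s) (lav μ (fun y => ENNReal.ofReal (g y)) z s) (f z)
    have h2 := ad_tri (lav μ (fun y => ENNReal.ofReal (g y)) z s) (ENNReal.ofReal (g z)) (f z)
    have h3 := ad_lav μ hf hGm z s
    have h4 := cont_part hD x₀ hR' hu hs0 (hs1.trans (min_le_left _ _))
      (hs1.trans (min_le_right _ _)) z
    have h5 : ad (ENNReal.ofReal (g z)) (f z) = ad (f z) (ENNReal.ofReal (g z)) := by
      unfold ad
      rw [add_comm]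
    rw [h5] at h2
    exact h1.trans (add_le_add h3 (h2.trans (add_le_add h4 le_rfl)))
  have hind : Measurable fun z =>
      (ball x₀ (R + 1)).indicator (fun _ => 2 * ENNReal.ofReal e) z :=
    measurable_const.indicator measurableSet_ball
  calc ∫⁻ z, ((lav μ f z s - f z) + (f z - lav μ f z s)) ∂μ ≤
      ∫⁻ z, (lav μ (fun y => ad (f y) (ENNReal.ofReal (g y))) z s +
      ((ball x₀ (R + 1)).indicator (fun _ => 2 * ENNReal.ofReal e) z +
        ad (f z) (ENNReal.ofReal (g z)))) ∂μ := lintegral_mono hpt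
    _ = ∫⁻ z, lav μ (fun y => ad (f y) (ENNReal.ofReal (g y))) z s ∂μ +
        (∫⁻ z, (ball x₀ (R + 1)).indicator (fun _ => 2 * ENNReal.ofReal e) z ∂μ +
          ∫⁻ z, ad (f z) (ENNReal.ofReal (g z)) ∂μ) := by
        have h9 : Measurable fun z => (ball x₀ (R + 1)).indicator (fun _ => 2 * ENNReal.ofReal e) z +
          ad (f z) (ENNReal.ofReal (g z)) := hind.add hadm
        rw [lintegral_add_right _ h9, lintegral_add_right _ hadm]
    _ ≤ ENNReal.ofReal D * ENNReal.ofReal t +
        (2 * ENNReal.ofReal e * ENNReal.ofReal M + ENNReal.ofReal t) := by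
        refine add_le_add ((lint_lav h x₀ hadm hs0).trans ?_) (add_le_add ?_ hint)
        · gcongr
        · rw [lintegral_indicator measurableSet_ball, setLIntegral_const, hM,
            ENNReal.ofReal_toReal (hD.fin _ _).ne]
    _ = ENNReal.ofReal (D * t + (2 * e * M + t)) := by
        rw [ENNReal.ofReal_add (by positivity) (by positivity),
          ENNReal.ofReal_add (by positivity) (by positivity),
          ENNReal.ofReal_mul (by positivity), ENNReal.ofReal_mul (by positivity),
          ENNReal.ofReal_mul (by positivity)]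
        norm_num
    _ ≤ ENNReal.ofReal c := by
        apply ENNReal.ofReal_le_ofReal
        have h1 : D * t + t = c / 2 := by
          rw [ht]; field_simp
        have h2 : 2 * e * M ≤ c / 2 := by
          rw [he]
          have : 2 * (c / (4 * (M + 1))) * M = c / 2 * (M / (M + 1)) := by
            field_simp
            ring
          rw [this]
          have h3 : M / (M + 1) ≤ 1 := by
            rw [div_le_one (by positivity)]
            linarith
          nlinarith
        linarith
    _ ≤ η := hcη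

end Pool.Agent.W948.FD.Avg
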